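import Pool.Agent.Q85.CL.Defs
import Pool.Agent.Q225.CC.LE

/-!
Project CL (helper85), job CL-LE: the local energy identity for test functions supported in `O` and
the equation of the Bernoulli pressure on `O` (adapted from the proofs of helper225 in
`Pool.Agent.Q225.CC.LE` and `Pool.Agent.Q225.CC.Bern`).
-/

set_option autoImplicit false

open MeasureTheory Set Metric Filter Topology
open scoped ContDiff
open H459R3.NS Pool.Agent.W268.NS Pool.Agent.Q67.VD Pool.Agent.W583.MD

namespace Pool.Agent.Q2.CL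

open Pool.Agent.Q85.CC Pool.Agent.Q85.CL

/-! ### The energy identity -/

/-- The local energy identity. -/
theorem leA (T : ℝ) (O : Set V) (u : ℝ → V → V) (p : ℝ → V → ℝ) (hI : LEq T O u p)
    (φ : V → ℝ) (hφ : ContDiff ℝ ∞ φ) (hc : HasCompactSupport φ) (hO : tsupport φ ⊆ O)
    (t : ℝ) (ht : t ∈ Ioo 0 T) :
    HasDerivAt (fun s => ∫ y, W221.NS.nsq (u s) y * φ y)
      (-2 * (∫ y, W221.NS.gsq (u t) y * φ y) + (∫ y, W221.NS.nsq (u t) y * lap φ y)
        + 2 * ∫ y, (p t y + W221.NS.nsq (u t) y / 2) * W221.NS.adv (u t) φ y) t := by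
  obtain ⟨R, hR⟩ : ∃ R : ℝ, tsupport φ ⊆ closedBall (0 : V) R :=
    hc.isCompact.isBounded.subset_closedBall 0
  have hz0 : ∀ z ∉ closedBall (0 : V) R, φ z = 0 := fun z hz =>
    image_eq_zero_of_notMem_tsupport fun h => hz (hR h)
  have hzt : ∀ z ∉ tsupport φ, φ z = 0 := fun z hz => image_eq_zero_of_notMem_tsupport hz
  have hv : ContDiffOn ℝ ∞ (fun z : ℝ × V => u z.1 z.2) (Ioo 0 T ×ˢ univ) := hI.smooth_u
  have hvi : ∀ i, ContDiffOn ℝ ∞ (fun z : ℝ × V => u z.1 z.2 i) (Ioo 0 T ×ˢ univ) :=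
    fun i => contDiffOn_pi.1 hv i
  have hq : ContDiff ℝ ∞ (p t) := slice hI.smooth_p ht
  have hw : ∀ i, ContDiff ℝ ∞ (fun y => u t y i) := fun i =>
    slice (F := fun t y => u t y i) (hvi i) ht
  have hn : Continuous (W221.NS.nsq (u t)) := by
    unfold W221.NS.nsq
    exact continuous_finsetSum _ fun i _ => (hw i).continuous.pow 2
  have hg : Continuous (W221.NS.gsq (u t)) := by
    unfold W221.NS.gsq
    exact continuous_finsetSum _ fun i _ => continuous_finsetSum _ fun j _ =>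
      (sm_pd (hw i) j).continuous.pow 2
  have hlap : Continuous (lap φ) := by
    unfold lap
    exact continuous_finsetSum _ fun j _ => (sm_pd (sm_pd hφ j) j).continuous
  have hlc : HasCompactSupport (lap φ) := by
    have h0 := cs_pd (cs_pd hc 0) 0
    have h1 := cs_pd (cs_pd hc 1) 1
    have h2 := cs_pd (cs_pd hc 2) 2
    have e : lap φ = pd 0 (pd 0 φ) + pd 1 (pd 1 φ) + pd 2 (pd 2 φ) := by
      funext x
      unfold lap
      rw [Fin.sum_univ_three]
      rfl
    rw [e]
    exact (h0.add h1).add h2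
  have hadv : Continuous (W221.NS.adv (u t) φ) := by
    unfold W221.NS.adv
    exact continuous_finsetSum _ fun j _ => (hw j).continuous.mul (sm_pd hφ j).continuous
  have hac : HasCompactSupport (W221.NS.adv (u t) φ) := by
    have h0 := (cs_pd hc 0).mul_left (f := fun x => u t x 0)
    have h1 := (cs_pd hc 1).mul_left (f := fun x => u t x 1)
    have h2 := (cs_pd hc 2).mul_left (f := fun x => u t x 2)
    have e : W221.NS.adv (u t) φ = (fun x => u t x 0) * pd 0 φ + (fun x => u t x 1) * pd 1 φ +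
        (fun x => u t x 2) * pd 2 φ := by
      funext x
      unfold W221.NS.adv
      rw [Fin.sum_univ_three]
      rfl
    rw [e]
    exact (h0.add h1).add h2
  -- the derivative in time
  have hΦ : ContDiffOn ℝ ∞ (fun z : ℝ × V => φ z.2) (Ioo 0 T ×ˢ univ) :=
    (hφ.comp contDiff_snd).contDiffOn
  have hF : ContDiffOn ℝ ∞ (fun z : ℝ × V => W221.NS.nsq (u z.1) z.2 * φ z.2)
      (Ioo 0 T ×ˢ univ) := by
    unfold W221.NS.nsq
    exact (ContDiffOn.sum fun i _ => (hvi i).pow 2).mul hΦ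
  have h1 := Pool.Agent.Q225.CC.hd_intR (F := fun s z => W221.NS.nsq (u s) z * φ z) (R := R) hF
    (fun s _ z hz => by rw [hz0 z hz, mul_zero]) ht
  refine h1.congr_deriv ?_
  -- the integrand
  have hD : ∀ x, deriv (fun s => W221.NS.nsq (u s) x * φ x) t =
      (∑ i, 2 * u t x i * (∑ j, pd j (pd j (fun y => u t y i)) x - pd i (p t) x -
        ∑ j, u t x j * pd j (fun y => u t y i) x)) * φ x := by
    intro x
    by_cases hx : x ∈ tsupport φ
    · have d1 : ∀ i, HasDerivAt (fun s => u s x i) (∑ j, pd j (pd j (fun y => u t y i)) x -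
          pd i (p t) x - ∑ j, u t x j * pd j (fun y => u t y i) x) t := by
        intro i
        have d := hd_slice (F := fun t y => u t y i) (hvi i) ht x
        rw [← d.deriv] at d
        have m := hI.momentum t ht x (hO hx) i
        have e : ∑ j, pd j (pd j (fun y => u t y i)) x - pd i (p t) x -
            ∑ j, u t x j * pd j (fun y => u t y i) x = deriv (fun s => u s x i) t := by
          linarith
        rw [e]
        exact d
      have d3 : HasDerivAt (fun s => W221.NS.nsq (u s) x) (∑ i, 2 * u t x i *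
          (∑ j, pd j (pd j (fun y => u t y i)) x - pd i (p t) x -
          ∑ j, u t x j * pd j (fun y => u t y i) x)) t := by
        unfold W221.NS.nsq
        refine HasDerivAt.fun_sum fun i _ => ?_
        refine ((d1 i).pow 2).congr_deriv ?_
        norm_num
      exact (d3.mul_const (φ x)).deriv
    · have h0 := hzt x hx
      simp only [h0, mul_zero]
      exact deriv_const t 0
  have hZ := Z_main (w := fun i y => u t y i) hw hq hφ hc
  have hloc : ∀ x ∉ tsupport φ, φ =ᶠ[𝓝 x] fun _ => 0 := fun x hx =>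
    notMem_tsupport_iff_eventuallyEq.mp hx
  have hpt : ∀ x, ∑ j, ((∑ i, (2 * pd j (fun y => u t y i * pd j (fun y => u t y i) y * φ y) x
      - pd j (fun y => u t y i * u t y i * pd j φ y) x
      - pd j (fun y => u t y j * (u t y i * u t y i) * φ y) x))
      - 2 * pd j (fun y => p t y * u t y j * φ y) x) =
    (∑ i, 2 * u t x i * (∑ j, pd j (pd j (fun y => u t y i)) x - pd i (p t) x -
      ∑ j, u t x j * pd j (fun y => u t y i) x)) * φ x
      - (-2 * ((∑ i, ∑ j, pd j (fun y => u t y i) x ^ 2) * φ x) +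
        (∑ i, u t x i ^ 2) * (∑ j, pd j (pd j φ) x)
        + ((∑ i, u t x i ^ 2) + 2 * p t x) * ∑ j, u t x j * pd j φ x) := by
    intro x
    by_cases hx : x ∈ tsupport φ
    · exact point (w := fun i y => u t y i) hw hq hφ x (hI.divfree t ht x (hO hx))
    · have h0 : φ =ᶠ[𝓝 x] fun _ => 0 := hloc x hx
      have hp0 : ∀ j, pd j φ =ᶠ[𝓝 x] fun _ => 0 := by
        intro j
        have h2 : fderiv ℝ φ =ᶠ[𝓝 x] fderiv ℝ (fun _ : V => (0 : ℝ)) := h0.fderiv
        filter_upwards [h2] with y hy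
        unfold pd
        rw [hy]
        simp
      have hp1 : ∀ j, pd j (pd j φ) x = 0 := by
        intro j
        unfold pd
        have h2 : fderiv ℝ (pd j φ) x = fderiv ℝ (fun _ : V => (0 : ℝ)) x := (hp0 j).fderiv_eq
        have h3 : (fun x => (fderiv ℝ φ x) (Pi.single j 1)) = pd j φ := rfl
        rw [h3, h2]
        simp
      have hmul : ∀ (g : V → ℝ) (f : V → ℝ) (j : Fin 3), f =ᶠ[𝓝 x] (fun _ => 0) →
          pd j (fun y => g y * f y) x = 0 := by
        intro g f j hf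
        have h2 : (fun y => g y * f y) =ᶠ[𝓝 x] fun _ => 0 := by
          filter_upwards [hf] with y hy
          rw [hy, mul_zero]
        unfold pd
        rw [h2.fderiv_eq]
        simp
      have a1 : ∀ i j, pd j (fun y => u t y i * pd j (fun y => u t y i) y * φ y) x = 0 :=
        fun i j => hmul (fun y => u t y i * pd j (fun y => u t y i) y) φ j h0
      have a2 : ∀ i j, pd j (fun y => u t y i * u t y i * pd j φ y) x = 0 :=
        fun i j => hmul (fun y => u t y i * u t y i) (pd j φ) j (hp0 j)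
      have a3 : ∀ i j, pd j (fun y => u t y j * (u t y i * u t y i) * φ y) x = 0 :=
        fun i j => hmul (fun y => u t y j * (u t y i * u t y i)) φ j h0
      have a4 : ∀ j, pd j (fun y => p t y * u t y j * φ y) x = 0 :=
        fun j => hmul (fun y => p t y * u t y j) φ j h0
      have a5 : φ x = 0 := h0.eq_of_nhds
      have a6 : ∀ j, pd j φ x = 0 := fun j => (hp0 j).eq_of_nhds
      simp only [a1, a2, a3, a4, a5, a6, hp1]
      simp
  have hZ' : Z (fun x => deriv (fun s => W221.NS.nsq (u s) x * φ x) t -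
      (-2 * (W221.NS.gsq (u t) x * φ x) + W221.NS.nsq (u t) x * lap φ x +
        2 * ((p t x + W221.NS.nsq (u t) x / 2) * W221.NS.adv (u t) φ x))) := by
    have e : ∀ x, deriv (fun s => W221.NS.nsq (u s) x * φ x) t -
        (-2 * (W221.NS.gsq (u t) x * φ x) + W221.NS.nsq (u t) x * lap φ x +
          2 * ((p t x + W221.NS.nsq (u t) x / 2) * W221.NS.adv (u t) φ x)) = _ := fun x => by
      refine Eq.trans ?_ (hpt x).symm
      rw [hD x]
      simp only [W221.NS.nsq, W221.NS.gsq, W221.NS.adv, lap]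
      ring
    have e' := funext e
    rw [e']
    exact hZ
  have i1 : Integrable fun x => W221.NS.gsq (u t) x * φ x :=
    int_cs (hg.mul hφ.continuous) hc.mul_left
  have i2 : Integrable fun x => W221.NS.nsq (u t) x * lap φ x :=
    int_cs (hn.mul hlap) hlc.mul_left
  have i3 : Integrable fun x => (p t x + W221.NS.nsq (u t) x / 2) * W221.NS.adv (u t) φ x :=
    int_cs ((hq.continuous.add (hn.div_const 2)).mul hadv) hac.mul_left
  have i4 : Integrable fun x => -2 * (W221.NS.gsq (u t) x * φ x) +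
      W221.NS.nsq (u t) x * lap φ x := (i1.const_mul (-2)).add i2
  have i5 : Integrable fun x => -2 * (W221.NS.gsq (u t) x * φ x) +
      W221.NS.nsq (u t) x * lap φ x +
      2 * ((p t x + W221.NS.nsq (u t) x / 2) * W221.NS.adv (u t) φ x) :=
    i4.add (i3.const_mul 2)
  have h2 := integral_add hZ'.1 i5
  simp only [sub_add_cancel] at h2
  rw [hZ'.2, zero_add, integral_add i4 (i3.const_mul 2), integral_add (i1.const_mul (-2)) i2,
    integral_const_mul, integral_const_mul] at h2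
  exact h2

/-! ### Derivatives of smooth functions -/

theorem pdd {f : V → ℝ} (hf : ContDiff ℝ ∞ f) (x : V) : DifferentiableAt ℝ f x :=
  (hf.differentiable (by norm_cast)) x

theorem pd_sub_s {f g : V → ℝ} (hf : ContDiff ℝ ∞ f) (hg : ContDiff ℝ ∞ g) (j : Fin 3) (x : V) :
    pd j (fun y => f y - g y) x = pd j f x - pd j g x := by
  unfold pd
  have h : HasFDerivAt (fun y => f y - g y) _ x := (pdd hf x).hasFDerivAt.sub (pdd hg x).hasFDerivAt
  rw [h.fderiv]
  rfl

theorem pd_add_s {f g : V → ℝ} (hf : ContDiff ℝ ∞ f) (hg : ContDiff ℝ ∞ g) (j : Fin 3) (x : V) :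
    pd j (fun y => f y + g y) x = pd j f x + pd j g x := by
  unfold pd
  have h : HasFDerivAt (fun y => f y + g y) _ x := (pdd hf x).hasFDerivAt.add (pdd hg x).hasFDerivAt
  rw [h.fderiv]
  rfl

theorem pd_sum_s {f : Fin 3 → V → ℝ} (hf : ∀ i, ContDiff ℝ ∞ (f i)) (j : Fin 3) (x : V) :
    pd j (fun y => ∑ i, f i y) x = ∑ i, pd j (f i) x := by
  unfold pd
  have h : HasFDerivAt (fun y => ∑ i, f i y) _ x :=
    HasFDerivAt.fun_sum fun i _ => (pdd (hf i) x).hasFDerivAt
  rw [h.fderiv]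
  simp

theorem pd_comm_s {f : V → ℝ} (hf : ContDiff ℝ ∞ f) (i j : Fin 3) (x : V) :
    pd i (pd j f) x = pd j (pd i f) x := by
  have h2 : ContDiff ℝ 2 f := hf.of_le (by norm_cast)
  have hs : IsSymmSndFDerivAt ℝ f x := h2.contDiffAt.isSymmSndFDerivAt (by simp)
  have hd : DifferentiableAt ℝ (fderiv ℝ f) x :=
    ((h2.fderiv_right (m := 1) (by norm_num)).differentiable one_ne_zero) x
  have key : ∀ a b : Fin 3, pd a (pd b f) x =
      fderiv ℝ (fderiv ℝ f) x (Pi.single a 1) (Pi.single b 1) := by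
    intro a b
    unfold pd
    have h := hd.hasFDerivAt.clm_apply (hasFDerivAt_const (Pi.single b (1 : ℝ) : V) x)
    rw [h.fderiv]
    simp
  rw [key, key]
  exact hs _ _

theorem pd_congr {f g : V → ℝ} {x : V} (h : f =ᶠ[𝓝 x] g) (j : Fin 3) : pd j f x = pd j g x := by
  unfold pd
  rw [h.fderiv_eq]

theorem pd_congr' {f g : V → ℝ} {x : V} (h : f =ᶠ[𝓝 x] g) (j : Fin 3) :
    pd j f =ᶠ[𝓝 x] pd j g := by
  have h2 : fderiv ℝ f =ᶠ[𝓝 x] fderiv ℝ g := h.fderiv
  filter_upwards [h2] with y hy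
  unfold pd
  rw [hy]

theorem pd_zero (j : Fin 3) (x : V) : pd j (fun _ : V => (0 : ℝ)) x = 0 := by
  unfold pd
  simp

section

variable {T : ℝ}

theorem pd_eqI {f : ℝ → V → ℝ}
    (hf : ContDiffOn ℝ ∞ (fun z : ℝ × V => f z.1 z.2) (Ioo 0 T ×ˢ univ)) {t : ℝ}
    (ht : t ∈ Ioo 0 T) (j : Fin 3) (x : V) :
    pd j (f t) x = fderiv ℝ (fun z : ℝ × V => f z.1 z.2) (t, x) (0, Pi.single j 1) := by
  have hmem : Ioo 0 T ×ˢ (univ : Set V) ∈ 𝓝 (t, x) :=
    prod_mem_nhds (Ioo_mem_nhds ht.1 ht.2) Filter.univ_mem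
  have h1 : DifferentiableAt ℝ (fun z : ℝ × V => f z.1 z.2) (t, x) :=
    (hf.contDiffAt hmem).differentiableAt (by norm_cast)
  have h2 : HasFDerivAt (fun y : V => ((t, y) : ℝ × V)) (ContinuousLinearMap.inr ℝ ℝ V) x :=
    hasFDerivAt_prodMk_right t x
  have h3 : HasFDerivAt (fun y : V => f t y) _ x := h1.hasFDerivAt.comp x h2
  unfold pd
  have h4 : fderiv ℝ (f t) x = _ := h3.fderiv
  rw [h4]
  simp

theorem dt_eqI {f : ℝ → V → ℝ}
    (hf : ContDiffOn ℝ ∞ (fun z : ℝ × V => f z.1 z.2) (Ioo 0 T ×ˢ univ)) {t : ℝ}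
    (ht : t ∈ Ioo 0 T) (x : V) :
    deriv (fun s => f s x) t = fderiv ℝ (fun z : ℝ × V => f z.1 z.2) (t, x) (1, 0) :=
  (hd_slice hf ht x).deriv

/-- Mixed derivatives. -/
theorem dt_pdI {f : ℝ → V → ℝ}
    (hf : ContDiffOn ℝ ∞ (fun z : ℝ × V => f z.1 z.2) (Ioo 0 T ×ˢ univ)) {t : ℝ}
    (ht : t ∈ Ioo 0 T) (j : Fin 3) (x : V) :
    HasDerivAt (fun s => pd j (f s) x) (pd j (fun y => deriv (fun s => f s y) t) x) t := by
  set F : ℝ × V → ℝ := fun z => f z.1 z.2 with hF
  have hmem : Ioo 0 T ×ˢ (univ : Set V) ∈ 𝓝 (t, x) :=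
    prod_mem_nhds (Ioo_mem_nhds ht.1 ht.2) Filter.univ_mem
  have h2 : ContDiffAt ℝ 2 F (t, x) := (hf.of_le (by norm_cast)).contDiffAt hmem
  have hs : IsSymmSndFDerivAt ℝ F (t, x) := h2.isSymmSndFDerivAt (by simp)
  have hd : DifferentiableAt ℝ (fderiv ℝ F) (t, x) :=
    (h2.fderiv_right (m := 1) (by norm_num)).differentiableAt one_ne_zero
  -- left side
  have l1 : HasDerivAt (fun s => fderiv ℝ F (s, x) (0, Pi.single j 1))
      (fderiv ℝ (fderiv ℝ F) (t, x) (1, 0) (0, Pi.single j 1)) t := by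
    have a1 : HasFDerivAt (fun z => fderiv ℝ F z (0, Pi.single j 1)) _ (t, x) :=
      hd.hasFDerivAt.clm_apply (hasFDerivAt_const ((0, Pi.single j (1 : ℝ)) : ℝ × V) (t, x))
    have a2 : HasDerivAt (fun s : ℝ => ((s, x) : ℝ × V)) (1, 0) t :=
      (hasDerivAt_id t).prodMk (hasDerivAt_const t x)
    have a3 := a1.comp_hasDerivAt t a2
    refine a3.congr_deriv ?_
    simp
  have l2 : HasDerivAt (fun s => pd j (f s) x)
      (fderiv ℝ (fderiv ℝ F) (t, x) (1, 0) (0, Pi.single j 1)) t := by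
    refine l1.congr_of_eventuallyEq ?_
    filter_upwards [Ioo_mem_nhds ht.1 ht.2] with s hs'
    exact pd_eqI hf hs' j x
  -- right side
  have r1 : HasFDerivAt (fun y => fderiv ℝ F (t, y) (1, 0))
      (((ContinuousLinearMap.apply ℝ ℝ ((1, 0) : ℝ × V)).comp
        (fderiv ℝ (fderiv ℝ F) (t, x))).comp (ContinuousLinearMap.inr ℝ ℝ V)) x := by
    have a1 : HasFDerivAt (fun z => fderiv ℝ F z (1, 0))
        ((ContinuousLinearMap.apply ℝ ℝ ((1, 0) : ℝ × V)).comp
        (fderiv ℝ (fderiv ℝ F) (t, x))) (t, x) :=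
      (ContinuousLinearMap.apply ℝ ℝ ((1, 0) : ℝ × V)).hasFDerivAt.comp (t, x) hd.hasFDerivAt
    have a2 : HasFDerivAt (fun y : V => ((t, y) : ℝ × V)) (ContinuousLinearMap.inr ℝ ℝ V) x :=
      hasFDerivAt_prodMk_right t x
    exact a1.comp x a2
  have r2 : (fun y => deriv (fun s => f s y) t) = fun y => fderiv ℝ F (t, y) (1, 0) :=
    funext fun y => dt_eqI hf ht y
  have r3 : pd j (fun y => deriv (fun s => f s y) t) x =
      fderiv ℝ (fderiv ℝ F) (t, x) (1, 0) (0, Pi.single j 1) := by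
    rw [r2]
    unfold pd
    rw [r1.fderiv]
    simp only [ContinuousLinearMap.comp_apply, ContinuousLinearMap.inr_apply,
      ContinuousLinearMap.apply_apply]
    exact hs _ _
  rw [r3]
  exact l2

/-- The time derivative is smooth in space. -/
theorem sm_dtI {f : ℝ → V → ℝ}
    (hf : ContDiffOn ℝ ∞ (fun z : ℝ × V => f z.1 z.2) (Ioo 0 T ×ˢ univ)) {t : ℝ}
    (ht : t ∈ Ioo 0 T) : ContDiff ℝ ∞ (fun y => deriv (fun s => f s y) t) := by
  have hO : IsOpen (Ioo 0 T ×ˢ (univ : Set V)) := isOpen_Ioo.prod isOpen_univ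
  have h1 : ContDiffOn ℝ ∞ (fderiv ℝ (fun z : ℝ × V => f z.1 z.2)) (Ioo 0 T ×ˢ univ) :=
    hf.fderiv_of_isOpen hO (by norm_cast)
  have h2 : ContDiffOn ℝ ∞ (fun z : ℝ × V => fderiv ℝ (fun z : ℝ × V => f z.1 z.2) z (1, 0))
      (Ioo 0 T ×ˢ univ) := h1.clm_apply contDiffOn_const
  rw [← contDiffOn_univ]
  have h3 : ContDiffOn ℝ ∞ (fun x : V => fderiv ℝ (fun z : ℝ × V => f z.1 z.2) (t, x) (1, 0))
      univ := h2.comp (contDiff_const.prodMk contDiff_id).contDiffOn (fun x _ => ⟨ht, mem_univ _⟩)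
  exact h3.congr fun x _ => dt_eqI hf ht x

end

/-! ### The Bernoulli pressure -/

/-- The convective term. -/
noncomputable def cv (v : V → V) (i : Fin 3) (x : V) : ℝ := ∑ j, v x j * pd j (fun y => v y i) x

theorem sm_cv {v : V → V} (hv : SM v) (i : Fin 3) : ContDiff ℝ ∞ (cv v i) := by
  unfold cv
  exact ContDiff.sum fun j _ => (hv j).mul (sm_pd (hv i) j)

theorem sm_lap {f : V → ℝ} (hf : ContDiff ℝ ∞ f) : ContDiff ℝ ∞ (lap f) := by
  unfold lap
  exact ContDiff.sum fun j _ => sm_pd (sm_pd hf j) j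

theorem sm_nsq {v : V → V} (hv : SM v) : ContDiff ℝ ∞ (fun z => W221.NS.nsq v z / 2) := by
  unfold W221.NS.nsq
  exact (ContDiff.sum fun i _ => (hv i).pow 2).div_const 2

theorem cross_eqS {v : V → V} (hv : SM v) (i : Fin 3) (y : V) :
    crossProduct (v y) (vort v y) i = pd i (fun z => W221.NS.nsq v z / 2) y - cv v i y := by
  have e1 : pd i (fun z => W221.NS.nsq v z / 2) y = ∑ j, v y j * pd i (fun z => v z j) y := by
    have e2 : (fun z => W221.NS.nsq v z / 2) = fun z => ∑ j, (v z j / 2) * v z j := by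
      funext z
      unfold W221.NS.nsq
      rw [Finset.sum_div]
      exact Finset.sum_congr rfl fun j _ => by ring
    have hs : ∀ j, ContDiff ℝ ∞ (fun z => v z j / 2) := fun j => (hv j).div_const 2
    rw [e2, pd_sum_s fun j => (hs j).mul (hv j)]
    refine Finset.sum_congr rfl fun j _ => ?_
    rw [pd_mul' (hs j) (hv j)]
    have e3 : pd i (fun z => v z j / 2) y = pd i (fun z => v z j) y / 2 := by
      unfold pd
      have h1 := (pdd (hv j) y).hasFDerivAt.mul_const (2⁻¹ : ℝ)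
      have h2 : (fun z => v z j / 2) = fun z => v z j * 2⁻¹ := by
        funext z; rw [div_eq_mul_inv]
      rw [h2, h1.fderiv]
      simp only [smul_apply, smul_eq_mul]
      ring
    rw [e3]
    ring
  rw [e1]
  unfold cv vort gradM
  simp only [Fin.sum_univ_three, crossProduct, LinearMap.mk₂_apply]
  fin_cases i
  · simp
    ring
  · simp
    ring
  · simp
    ring

/-- divergence of the Laplacian -/
theorem div_lapS {v : V → V} (hv : SM v) {O : Set V} (hO : IsOpen O)
    (hdiv : ∀ x ∈ O, ∑ i, pd i (fun y => v y i) x = 0) {x : V} (hx : x ∈ O) :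
    ∑ i, pd i (lap (fun y => v y i)) x = 0 := by
  have h1 : ∀ i, pd i (lap (fun y => v y i)) x =
      ∑ j, pd j (pd j (pd i (fun y => v y i))) x := by
    intro i
    have e : lap (fun y => v y i) = fun z => ∑ j, pd j (pd j (fun y => v y i)) z := rfl
    rw [e, pd_sum_s fun j => sm_pd (sm_pd (hv i) j) j]
    refine Finset.sum_congr rfl fun j _ => ?_
    rw [pd_comm_s (sm_pd (hv i) j) i j]
    refine pd_congr (Filter.Eventually.of_forall fun y => ?_) j
    exact pd_comm_s (hv i) i j y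
  simp_rw [h1]
  rw [Finset.sum_comm]
  refine Finset.sum_eq_zero fun j _ => ?_
  have h2 : (fun y => ∑ i, pd i (fun y => v y i) y) =ᶠ[𝓝 x] fun _ => (0 : ℝ) := by
    filter_upwards [hO.mem_nhds hx] with y hy
    exact hdiv y hy
  have h3 : pd j (pd j (fun y => ∑ i, pd i (fun y => v y i) y)) x = 0 := by
    have a1 := pd_congr' h2 j
    have a2 : pd j (fun _ : V => (0 : ℝ)) = fun _ => 0 := funext fun y => pd_zero j y
    rw [a2] at a1
    rw [pd_congr a1 j, pd_zero]
  have h4 : pd j (fun y => ∑ i, pd i (fun y => v y i) y) =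
      fun y => ∑ i, pd j (pd i (fun y => v y i)) y := funext fun y =>
    pd_sum_s (fun i => sm_pd (hv i) i) j y
  rw [h4, pd_sum_s fun i => sm_pd (sm_pd (hv i) i) j] at h3
  exact h3

theorem bernA (T : ℝ) (O : Set V) (u : ℝ → V → V) (p : ℝ → V → ℝ) (hI : LEq T O u p)
    (t : ℝ) (ht : t ∈ Ioo 0 T) (x : V) (hx : x ∈ O) :
    lap (fun y => p t y + W221.NS.nsq (u t) y / 2) x
      = ∑ i, pd i (fun y => crossProduct (u t y) (vort (u t) y) i) x := by
  have hvi : ∀ i, ContDiffOn ℝ ∞ (fun z : ℝ × V => u z.1 z.2 i) (Ioo 0 T ×ˢ univ) :=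
    fun i => contDiffOn_pi.1 hI.smooth_u i
  have hq : ContDiff ℝ ∞ (p t) := slice hI.smooth_p ht
  have hw : SM (u t) := fun i => slice (F := fun t y => u t y i) (hvi i) ht
  have hn := sm_nsq hw
  have hdt : ∀ i, ContDiff ℝ ∞ (fun y => deriv (fun s => u s y i) t) := fun i =>
    sm_dtI (f := fun t y => u t y i) (hvi i) ht
  -- the right side
  have ecr : ∀ i, (fun y => crossProduct (u t y) (vort (u t) y) i)
      = fun y => pd i (fun z => W221.NS.nsq (u t) z / 2) y - cv (u t) i y :=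
    fun i => funext fun y => cross_eqS hw i y
  have e1 : ∀ i, pd i (fun y => crossProduct (u t y) (vort (u t) y) i) x
      = pd i (pd i (fun z => W221.NS.nsq (u t) z / 2)) x - pd i (cv (u t) i) x := by
    intro i
    rw [ecr i, pd_sub_s (sm_pd hn i) (sm_cv hw i)]
  rw [Finset.sum_congr rfl fun i _ => e1 i, Finset.sum_sub_distrib]
  -- the left side
  have e2 : lap (fun y => p t y + W221.NS.nsq (u t) y / 2) x
      = lap (p t) x + lap (fun z => W221.NS.nsq (u t) z / 2) x := by
    have a1 : ∀ j, pd j (fun y => p t y + W221.NS.nsq (u t) y / 2)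
        = fun y => pd j (p t) y + pd j (fun z => W221.NS.nsq (u t) z / 2) y := fun j =>
      funext fun y => pd_add_s hq hn j y
    unfold lap
    rw [← Finset.sum_add_distrib]
    refine Finset.sum_congr rfl fun j _ => ?_
    rw [a1 j]
    exact pd_add_s (sm_pd hq j) (sm_pd hn j) j x
  -- the pressure
  have hdd : ∑ i, pd i (fun y => deriv (fun s => u s y i) t) x = 0 := by
    have h2 : ∀ i, HasDerivAt (fun s => pd i (fun y => u s y i) x)
        (pd i (fun y => deriv (fun s => u s y i) t) x) t := fun i =>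
      dt_pdI (f := fun s y => u s y i) (hvi i) ht i x
    have h3 : HasDerivAt (fun s => ∑ i, pd i (fun y => u s y i) x)
        (∑ i, pd i (fun y => deriv (fun s => u s y i) t) x) t :=
      HasDerivAt.fun_sum fun i _ => h2 i
    rw [← h3.deriv]
    have h4 : (fun s => ∑ i, pd i (fun y => u s y i) x) =ᶠ[𝓝 t] fun _ => 0 := by
      filter_upwards [Ioo_mem_nhds ht.1 ht.2] with s hs
      exact hI.divfree s hs x hx
    rw [h4.deriv_eq]
    exact deriv_const t 0
  have hP : ∀ i, pd i (pd i (p t)) x = pd i (lap (fun y => u t y i)) x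
      - pd i (fun y => deriv (fun s => u s y i) t) x - pd i (cv (u t) i) x := by
    intro i
    have a1 : pd i (p t) =ᶠ[𝓝 x] fun y => (lap (fun y => u t y i) y -
        deriv (fun s => u s y i) t) - cv (u t) i y := by
      filter_upwards [hI.openO.mem_nhds hx] with y hy
      have m := hI.momentum t ht y hy i
      unfold lap cv
      linarith
    rw [pd_congr a1 i, pd_sub_s ((sm_lap (hw i)).sub (hdt i)) (sm_cv hw i),
      pd_sub_s (sm_lap (hw i)) (hdt i)]
  have hlp : lap (p t) x = -∑ i, pd i (cv (u t) i) x := by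
    have e : lap (p t) x = ∑ i, pd i (pd i (p t)) x := rfl
    rw [e, Finset.sum_congr rfl fun i _ => hP i, Finset.sum_sub_distrib, Finset.sum_sub_distrib,
      div_lapS hw hI.openO (hI.divfree t ht) hx, hdd]
    ring
  have e3 : lap (fun z => W221.NS.nsq (u t) z / 2) x
      = ∑ i, pd i (pd i (fun z => W221.NS.nsq (u t) z / 2)) x := rfl
  rw [e2, hlp, e3]
  ring

/-- Job CL-LE. -/
theorem lel : StmLEL := by
  intro T O u p hI
  exact ⟨fun φ hφ hc hO t ht => leA T O u p hI φ hφ hc hO t ht,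
    fun t ht x hx => bernA T O u p hI t ht x hx⟩

end Pool.Agent.Q2.CL
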